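import Mathlib
import Pool.Agent.U307.RAD.Stm4
import Pool.Agent.U56.RAD.LP

/-!
# Project RAD, package CUT (helper416): the bound on `L ^ q` with a cut-off function
-/

set_option autoImplicit false

open MeasureTheory Filter Topology Set
open scoped ENNReal SchwartzMap ComplexConjugate

namespace Pool.Agent.U416.RAD

open Pool.Agent.U307.RAD Pool.Agent.U56.RAD

/-- the pairs `(z, r)` with `a r ≤ ‖z‖ ≤ b r` -/
def Js (a b : ℝ) : Set (ℂ × ℝ) := {x | a * x.2 ≤ ‖x.1‖ ∧ ‖x.1‖ ≤ b * x.2}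

noncomputable def J (a b : ℝ) : ℂ × ℝ → ℝ≥0∞ := (Js a b).indicator fun _ => 1

lemma Js_meas (a b : ℝ) : MeasurableSet (Js a b) := by
  have h1 : IsClosed {x : ℂ × ℝ | a * x.2 ≤ ‖x.1‖} :=
    isClosed_le (continuous_const.mul continuous_snd) continuous_fst.norm
  have h2 : IsClosed {x : ℂ × ℝ | ‖x.1‖ ≤ b * x.2} :=
    isClosed_le continuous_fst.norm (continuous_const.mul continuous_snd)
  exact (h1.inter h2).measurableSet

lemma J_meas (a b : ℝ) : Measurable (J a b) := measurable_const.indicator (Js_meas a b)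

lemma J_le_one (a b : ℝ) (x : ℂ × ℝ) : J a b x ≤ 1 := by
  unfold J
  by_cases h : x ∈ Js a b
  · rw [Set.indicator_of_mem h]
  · rw [Set.indicator_of_notMem h]
    exact zero_le

lemma J_scale (a b : ℝ) {r : ℝ} (hr : 0 < r) (z : ℂ) : J a b ((r : ℂ) * z, r) = J a b (z, 1) := by
  have key : ((r : ℂ) * z, r) ∈ Js a b ↔ (z, (1 : ℝ)) ∈ Js a b := by
    unfold Js
    simp only [mem_ofPred_eq, norm_mul, Complex.norm_real, Real.norm_eq_abs, abs_of_pos hr, mul_one]
    rw [mul_comm a r, mul_comm b r, mul_le_mul_iff_right₀ hr, mul_le_mul_iff_right₀ hr]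
  unfold J
  by_cases h : (z, (1 : ℝ)) ∈ Js a b
  · rw [Set.indicator_of_mem h, Set.indicator_of_mem (key.2 h)]
  · rw [Set.indicator_of_notMem h, Set.indicator_of_notMem fun h' => h (key.1 h')]

lemma inner_le (n : ℕ) {a b W : ℝ} (ha : 0 < a) (hab : a ≤ b)
    (hW : ∀ α β : ℝ, 0 < α → α ≤ β → β ≤ 1 → β * a ≤ α * b → ∫ r in α..β, |uu n 0 r| / r ≤ W)
    {z : ℂ} (hz : z ≠ 0) :
    ∫⁻ r in Ioc (0 : ℝ) 1, ENNReal.ofReal (|uu n 0 r| / r) * J a b (z, r) ≤ ENNReal.ofReal W := by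
  have hb : 0 < b := ha.trans_le hab
  have hz0 : 0 < ‖z‖ := norm_pos_iff.2 hz
  set α := ‖z‖ / b with hα
  set β := min (‖z‖ / a) 1 with hβ
  have hα0 : 0 < α := div_pos hz0 hb
  have hsub : ∀ r ∈ Ioc (0 : ℝ) 1, J a b (z, r) ≠ 0 → α ≤ r ∧ r ≤ β := by
    intro r hr h
    have hm : (z, r) ∈ Js a b := by
      by_contra hcon
      exact h (Set.indicator_of_notMem hcon _)
    have hm' : a * r ≤ ‖z‖ ∧ ‖z‖ ≤ b * r := hm
    refine ⟨?_, le_min ?_ hr.2⟩
    · rw [hα, div_le_iff₀ hb]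
      linarith [hm'.2, mul_comm b r]
    · rw [le_div_iff₀ ha]
      linarith [hm'.1, mul_comm a r]
  by_cases hαβ : α ≤ β
  · calc ∫⁻ r in Ioc (0 : ℝ) 1, ENNReal.ofReal (|uu n 0 r| / r) * J a b (z, r)
        ≤ ∫⁻ r in Ioc (0 : ℝ) 1,
          (Icc α β).indicator (fun r => ENNReal.ofReal (|uu n 0 r| / r)) r := by
          refine setLIntegral_mono' measurableSet_Ioc fun r hr => ?_
          by_cases h : J a b (z, r) = 0
          · rw [h, mul_zero]
            exact zero_le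
          · rw [Set.indicator_of_mem (show r ∈ Icc α β from hsub r hr h)]
            calc ENNReal.ofReal (|uu n 0 r| / r) * J a b (z, r)
                ≤ ENNReal.ofReal (|uu n 0 r| / r) * 1 := mul_le_mul_right (J_le_one a b _) _
              _ = ENNReal.ofReal (|uu n 0 r| / r) := mul_one _
      _ ≤ ∫⁻ r, (Icc α β).indicator (fun r => ENNReal.ofReal (|uu n 0 r| / r)) r :=
          setLIntegral_le_lintegral _ _
      _ = ∫⁻ r in Icc α β, ENNReal.ofReal (|uu n 0 r| / r) :=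
          lintegral_indicator measurableSet_Icc _
      _ = ∫⁻ r in Ioc α β, ENNReal.ofReal (|uu n 0 r| / r) :=
          setLIntegral_congr Ioc_ae_eq_Icc.symm
      _ = ENNReal.ofReal (∫ r in α..β, |uu n 0 r| / r) := by
          rw [intervalIntegral.integral_of_le hαβ, ofReal_integral_eq_lintegral_ofReal]
          · have hc : ContinuousOn (fun r : ℝ => |uu n 0 r| / r) (Icc α β) := by
              refine ((uu_cont n 0).abs.continuousOn).div continuousOn_id fun r hr => ?_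
              exact (hα0.trans_le hr.1).ne'
            exact (hc.integrableOn_Icc).mono_set Ioc_subset_Icc_self
          · refine (ae_restrict_mem measurableSet_Ioc).mono fun r hr => ?_
            exact div_nonneg (abs_nonneg _) (hα0.trans hr.1).le
      _ ≤ ENNReal.ofReal W := by
          refine ENNReal.ofReal_le_ofReal (hW α β hα0 hαβ (min_le_right _ _) ?_)
          have h1 : β * a ≤ ‖z‖ / a * a := mul_le_mul_of_nonneg_right (min_le_left _ _) ha.le
          rw [div_mul_cancel₀ _ ha.ne'] at h1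
          rw [hα, div_mul_cancel₀ _ hb.ne']
          exact h1
  · have h0 : ∫⁻ r in Ioc (0 : ℝ) 1, ENNReal.ofReal (|uu n 0 r| / r) * J a b (z, r) =
        ∫⁻ _r in Ioc (0 : ℝ) 1, (0 : ℝ≥0∞) := by
      refine setLIntegral_congr_fun measurableSet_Ioc fun r hr => ?_
      have : J a b (z, r) = 0 := by
        by_contra h
        have h1 := hsub r hr h
        exact hαβ (h1.1.trans h1.2)
      simp only [this, mul_zero]
    rw [h0, lintegral_zero]
    exact zero_le

theorem t_CUT : S_FRM → S_CUT := by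
  intro hF n a b V W χ hn ha hab hV hW hχc hχ1 hχs hVq hWq P h1 hP2 f
  have h0 : 0 < P := by linarith
  set g : ℂ → ℂ := PP 0 f with hg
  have hgc : Continuous g := PP_cont 0 f.continuous
  set S : Set ℝ := Ioc (0 : ℝ) 1 with hS
  set w : ℝ → ℝ≥0∞ := fun r => ENNReal.ofReal |qq n 0 r| with hw
  have hqr : Continuous (qq n 0) := by
    unfold qq
    exact continuous_id.mul (uu_cont n 0)
  have hwm : Measurable w := hqr.abs.measurable.ennreal_ofReal
  set K : ℝ≥0∞ := ∫⁻ r in S, w r with hK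
  have hKv : K ≤ ENNReal.ofReal V := by
    refine le_trans (le_of_eq ?_) (ENNReal.ofReal_le_ofReal hVq)
    rw [intervalIntegral.integral_of_le zero_le_one]
    rw [ofReal_integral_eq_lintegral_ofReal]
    · exact hqr.abs.integrableOn_Ioc
    · exact Eventually.of_forall fun r => abs_nonneg _
  set h : ℂ → ℝ≥0∞ := fun z => ∫⁻ r in S, ‖(qq n 0 r : ℂ)‖ₑ * ‖g ((r : ℂ) * z)‖ₑ with hh
  have hqc : Continuous fun r : ℝ => (qq n 0 r : ℂ) := Complex.continuous_ofReal.comp hqr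
  have hgr : Continuous fun q : ℂ × ℝ => g ((q.2 : ℂ) * q.1) := by fun_prop
  have hhm : Measurable h := by
    rw [hh]
    refine Measurable.lintegral_prod_right' (f := fun q : ℂ × ℝ =>
      ‖(qq n 0 q.2 : ℂ)‖ₑ * ‖g ((q.2 : ℂ) * q.1)‖ₑ) ?_
    exact ((hqc.comp continuous_snd).enorm.measurable).mul hgr.enorm.measurable
  set H : ℂ → ℝ≥0∞ := fun z => ENNReal.ofReal (χ z) * h z with hHdef
  have hHm : Measurable H := hχc.measurable.ennreal_ofReal.mul hhm
  have hAA : ∀ᵐ z : ℂ, ‖(χ z : ℂ) * AA n 0 f z‖ₑ ≤ ‖g z‖ₑ + H z := by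
    have hne : ∀ᵐ z : ℂ, z ≠ 0 := by
      simp [ae_iff, measure_singleton]
    refine hne.mono fun z hz => ?_
    rw [hF n 0 hn f z hz, enorm_mul, enorm_mul, enorm_pow]
    have e1 : ‖starRingEnd ℂ z / z‖ₑ = 1 := by
      rw [← ofReal_norm, norm_div, Complex.norm_conj, div_self (by simpa using hz),
        ENNReal.ofReal_one]
    have e0 : ‖(χ z : ℂ)‖ₑ = ENNReal.ofReal (χ z) := by
      rw [← ofReal_norm, Complex.norm_real, Real.norm_eq_abs, abs_of_nonneg (hχ1 z).1]
    have e3 : ENNReal.ofReal (χ z) ≤ 1 := by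
      rw [← ENNReal.ofReal_one]
      exact ENNReal.ofReal_le_ofReal (hχ1 z).2
    rw [e1, one_pow, one_mul, e0]
    have e2 : ‖PP 0 (⇑f) z - ∫ r in (0 : ℝ)..1, (qq n 0 r : ℂ) * PP 0 (⇑f) ((r : ℂ) * z)‖ₑ ≤
        ‖g z‖ₑ + h z := by
      refine (enorm_sub_le).trans (add_le_add le_rfl ?_)
      rw [intervalIntegral.integral_of_le zero_le_one]
      refine (enorm_integral_le_lintegral_enorm _).trans (le_of_eq ?_)
      refine lintegral_congr fun r => ?_
      rw [enorm_mul]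
    calc ENNReal.ofReal (χ z) * ‖PP 0 (⇑f) z -
          ∫ r in (0 : ℝ)..1, (qq n 0 r : ℂ) * PP 0 (⇑f) ((r : ℂ) * z)‖ₑ
        ≤ ENNReal.ofReal (χ z) * (‖g z‖ₑ + h z) := mul_le_mul_right e2 _
      _ = ENNReal.ofReal (χ z) * ‖g z‖ₑ + H z := by rw [mul_add]
      _ ≤ 1 * ‖g z‖ₑ + H z := add_le_add (mul_le_mul_left e3 _) le_rfl
      _ = ‖g z‖ₑ + H z := by rw [one_mul]
  -- the norm of the second term
  have hHP : ∫⁻ z, H z ^ P ≤
      ENNReal.ofReal V ^ (P - 1) * (ENNReal.ofReal W * ∫⁻ z, ‖g z‖ₑ ^ P) := by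
    set ν : Measure ℝ := (volume.restrict S).withDensity w with hν
    have hνu : ν univ = K := by
      rw [hν, withDensity_apply _ MeasurableSet.univ, setLIntegral_univ]
    have hm : ∀ z : ℂ, Measurable fun r : ℝ => ‖g ((r : ℂ) * z)‖ₑ := fun z => by
      have : Continuous fun r : ℝ => g ((r : ℂ) * z) := by fun_prop
      exact this.enorm.measurable
    have e1 : ∀ z, h z = ∫⁻ r, ‖g ((r : ℂ) * z)‖ₑ ∂ν := by
      intro z
      rw [hν, lintegral_withDensity_eq_lintegral_mul _ hwm]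
      · refine setLIntegral_congr_fun measurableSet_Ioc fun r hr => ?_
        simp only [Pi.mul_apply]
        congr 1
        rw [hw, ← ofReal_norm, Complex.norm_real, Real.norm_eq_abs]
      · exact hm z
    have e2 : ∀ z, h z ^ P ≤ ENNReal.ofReal V ^ (P - 1) *
        ∫⁻ r in S, w r * ‖g ((r : ℂ) * z)‖ₑ ^ P := by
      intro z
      rw [e1 z]
      refine (jens ν h1 (hm z).aemeasurable).trans ?_
      rw [hνu]
      have e3 : ∫⁻ r, ‖g ((r : ℂ) * z)‖ₑ ^ P ∂ν = ∫⁻ r in S, w r * ‖g ((r : ℂ) * z)‖ₑ ^ P := by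
        rw [hν, lintegral_withDensity_eq_lintegral_mul _ hwm ((hm z).pow_const P)]
        rfl
      rw [e3]
      exact mul_le_mul_left (ENNReal.rpow_le_rpow hKv (by linarith)) _
    have e4 : ∀ z, H z ^ P ≤ ENNReal.ofReal V ^ (P - 1) *
        ∫⁻ r in S, J a b (z, 1) * (w r * ‖g ((r : ℂ) * z)‖ₑ ^ P) := by
      intro z
      have hmz : Measurable fun r : ℝ => w r * ‖g ((r : ℂ) * z)‖ₑ ^ P :=
        hwm.mul ((hm z).pow_const P)
      rw [lintegral_const_mul _ hmz]
      show (ENNReal.ofReal (χ z) * h z) ^ P ≤ _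
      rw [ENNReal.mul_rpow_of_nonneg _ _ h0.le]
      by_cases hz : χ z = 0
      · rw [hz, ENNReal.ofReal_zero, ENNReal.zero_rpow_of_pos h0, zero_mul]
        exact zero_le
      · have hJ : J a b (z, 1) = 1 := by
          refine Set.indicator_of_mem (show (z, (1 : ℝ)) ∈ Js a b from ?_) _
          have := hχs z hz
          exact ⟨by simpa using this.1, by simpa using this.2⟩
        rw [hJ, one_mul]
        have e3 : ENNReal.ofReal (χ z) ^ P ≤ 1 := by
          refine ENNReal.rpow_le_one ?_ h0.le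
          rw [← ENNReal.ofReal_one]
          exact ENNReal.ofReal_le_ofReal (hχ1 z).2
        calc ENNReal.ofReal (χ z) ^ P * h z ^ P ≤ 1 * h z ^ P := mul_le_mul_left e3 _
          _ = h z ^ P := one_mul _
          _ ≤ _ := e2 z
    have hmm : Measurable fun q : ℂ × ℝ =>
        J a b (q.1, 1) * (w q.2 * ‖g ((q.2 : ℂ) * q.1)‖ₑ ^ P) := by
      refine ((J_meas a b).comp (measurable_fst.prodMk measurable_const)).mul ?_
      exact (hwm.comp measurable_snd).mul (hgr.enorm.measurable.pow_const P)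
    have hmm2 : Measurable fun q : ℂ × ℝ =>
        ENNReal.ofReal (|uu n 0 q.2| / q.2) * (J a b (q.1, q.2) * ‖g q.1‖ₑ ^ P) := by
      refine Measurable.mul ?_ (Measurable.mul (J_meas a b)
        ((hgc.comp continuous_fst).enorm.measurable.pow_const P))
      exact (((uu_cont n 0).abs.measurable.comp measurable_snd).div measurable_snd).ennreal_ofReal
    calc ∫⁻ z, H z ^ P
        ≤ ∫⁻ z, ENNReal.ofReal V ^ (P - 1) *
          ∫⁻ r in S, J a b (z, 1) * (w r * ‖g ((r : ℂ) * z)‖ₑ ^ P) := lintegral_mono e4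
      _ = ENNReal.ofReal V ^ (P - 1) * ∫⁻ z, ∫⁻ r in S,
          J a b (z, 1) * (w r * ‖g ((r : ℂ) * z)‖ₑ ^ P) := by
          rw [lintegral_const_mul]
          exact Measurable.lintegral_prod_right' hmm
      _ = ENNReal.ofReal V ^ (P - 1) * ∫⁻ r in S, ∫⁻ z,
          J a b (z, 1) * (w r * ‖g ((r : ℂ) * z)‖ₑ ^ P) := by
          rw [lintegral_lintegral_swap hmm.aemeasurable]
      _ = ENNReal.ofReal V ^ (P - 1) * ∫⁻ r in S, ∫⁻ z,
          ENNReal.ofReal (|uu n 0 r| / r) * (J a b (z, r) * ‖g z‖ₑ ^ P) := by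
          congr 1
          refine setLIntegral_congr_fun measurableSet_Ioc fun r hr => ?_
          have hr0 : 0 < r := hr.1
          have hm1 : Measurable fun z : ℂ => J a b (z, r) * ‖g z‖ₑ ^ P :=
            ((J_meas a b).comp (measurable_id.prodMk measurable_const)).mul
              (hgc.enorm.measurable.pow_const P)
          have hm2 : Measurable fun z : ℂ => J a b ((r : ℂ) * z, r) * ‖g ((r : ℂ) * z)‖ₑ ^ P :=
            hm1.comp (measurable_const_mul (r : ℂ))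
          rw [lintegral_const_mul _ hm1, ← lint_scale hr0 hm1]
          have e5 : ∀ z : ℂ, J a b (z, 1) * (w r * ‖g ((r : ℂ) * z)‖ₑ ^ P) =
              w r * (J a b ((r : ℂ) * z, r) * ‖g ((r : ℂ) * z)‖ₑ ^ P) := by
            intro z
            rw [J_scale a b hr0]
            ring
          rw [lintegral_congr e5, lintegral_const_mul _ hm2, ← mul_assoc]
          congr 1
          rw [← ENNReal.ofReal_mul (div_nonneg (abs_nonneg _) hr0.le)]
          show ENNReal.ofReal |r * uu n 0 r| = _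
          congr 1
          rw [abs_mul, abs_of_pos hr0]
          field_simp
      _ = ENNReal.ofReal V ^ (P - 1) * ∫⁻ z, ∫⁻ r in S,
          ENNReal.ofReal (|uu n 0 r| / r) * (J a b (z, r) * ‖g z‖ₑ ^ P) := by
          congr 1
          exact (lintegral_lintegral_swap (f := fun (z : ℂ) (r : ℝ) =>
            ENNReal.ofReal (|uu n 0 r| / r) * (J a b (z, r) * ‖g z‖ₑ ^ P)) hmm2.aemeasurable).symm
      _ ≤ ENNReal.ofReal V ^ (P - 1) * ∫⁻ z, ENNReal.ofReal W * ‖g z‖ₑ ^ P := by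
          refine mul_le_mul_right (lintegral_mono_ae ?_) _
          have hne : ∀ᵐ z : ℂ, z ≠ 0 := by
            simp [ae_iff, measure_singleton]
          refine hne.mono fun z hz => ?_
          have e6 : ∀ r : ℝ, ENNReal.ofReal (|uu n 0 r| / r) * (J a b (z, r) * ‖g z‖ₑ ^ P) =
              ENNReal.ofReal (|uu n 0 r| / r) * J a b (z, r) * ‖g z‖ₑ ^ P := fun r => by ring
          have hm3 : Measurable fun r : ℝ => ENNReal.ofReal (|uu n 0 r| / r) * J a b (z, r) :=
            (((uu_cont n 0).abs.measurable.div measurable_id).ennreal_ofReal).mul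
              ((J_meas a b).comp (measurable_const.prodMk measurable_id))
          rw [lintegral_congr e6, lintegral_mul_const _ hm3]
          exact mul_le_mul_left (inner_le n ha hab hWq hz) _
      _ = ENNReal.ofReal V ^ (P - 1) * (ENNReal.ofReal W * ∫⁻ z, ‖g z‖ₑ ^ P) := by
          rw [lintegral_const_mul _ (hgc.enorm.measurable.pow_const P)]
  -- Minkowski
  have hVW : (ENNReal.ofReal V ^ (P - 1) * ENNReal.ofReal W) ^ (1 / P) =
      ENNReal.ofReal (V ^ (1 - 1 / P) * W ^ (1 / P)) := by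
    have hi : 0 ≤ 1 / P := by positivity
    rw [ENNReal.mul_rpow_of_nonneg _ _ hi, ← ENNReal.rpow_mul,
      ENNReal.ofReal_rpow_of_pos (by linarith), ENNReal.ofReal_rpow_of_pos (by linarith),
      ← ENNReal.ofReal_mul (by positivity)]
    congr 3
    field_simp
  have hfin : (∫⁻ z, ‖(χ z : ℂ) * AA n 0 f z‖ₑ ^ P) ^ (1 / P) ≤
      (1 + ENNReal.ofReal (V ^ (1 - 1 / P) * W ^ (1 / P))) * (∫⁻ z, ‖f z‖ₑ ^ P) ^ (1 / P) := by
    have a1 : ∫⁻ z, ‖(χ z : ℂ) * AA n 0 f z‖ₑ ^ P ≤ ∫⁻ z, ((fun z => ‖g z‖ₑ) + H) z ^ P := by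
      refine lintegral_mono_ae (hAA.mono fun z hz => ?_)
      exact ENNReal.rpow_le_rpow hz h0.le
    have a2 := ENNReal.lintegral_Lp_add_le (μ := (volume : Measure ℂ))
      (f := fun z => ‖g z‖ₑ) (g := H) hgc.enorm.measurable.aemeasurable hHm.aemeasurable h1.le
    have a3 : (∫⁻ z, ‖g z‖ₑ ^ P) ≤ ∫⁻ z, ‖f z‖ₑ ^ P := PP_le 0 f.continuous h1
    have hi : 0 ≤ 1 / P := by positivity
    have a4 : (∫⁻ z, H z ^ P) ^ (1 / P) ≤
        ENNReal.ofReal (V ^ (1 - 1 / P) * W ^ (1 / P)) * (∫⁻ z, ‖f z‖ₑ ^ P) ^ (1 / P) := by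
      rw [← hVW, ← ENNReal.mul_rpow_of_nonneg _ _ hi]
      refine ENNReal.rpow_le_rpow (hHP.trans ?_) hi
      rw [← mul_assoc]
      exact mul_le_mul_right a3 _
    calc (∫⁻ z, ‖(χ z : ℂ) * AA n 0 f z‖ₑ ^ P) ^ (1 / P)
        ≤ (∫⁻ z, ((fun z => ‖g z‖ₑ) + H) z ^ P) ^ (1 / P) := ENNReal.rpow_le_rpow a1 hi
      _ ≤ (∫⁻ z, ‖g z‖ₑ ^ P) ^ (1 / P) + (∫⁻ z, H z ^ P) ^ (1 / P) := a2
      _ ≤ (∫⁻ z, ‖f z‖ₑ ^ P) ^ (1 / P) +
          ENNReal.ofReal (V ^ (1 - 1 / P) * W ^ (1 / P)) * (∫⁻ z, ‖f z‖ₑ ^ P) ^ (1 / P) :=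
          add_le_add (ENNReal.rpow_le_rpow a3 hi) a4
      _ = (1 + ENNReal.ofReal (V ^ (1 - 1 / P) * W ^ (1 / P))) *
          (∫⁻ z, ‖f z‖ₑ ^ P) ^ (1 / P) := by ring
  have hlast := ENNReal.rpow_le_rpow hfin h0.le
  rw [← ENNReal.rpow_mul, one_div_mul_cancel h0.ne', ENNReal.rpow_one,
    ENNReal.mul_rpow_of_nonneg _ _ h0.le, ← ENNReal.rpow_mul, one_div_mul_cancel h0.ne',
    ENNReal.rpow_one] at hlast
  rw [ENNReal.ofReal_add zero_le_one (by positivity), ENNReal.ofReal_one]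
  exact hlast

end Pool.Agent.U416.RAD
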